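import Pool.Agent.Y456.DP.Core

/-!
# Completed `L`-functions of motives and of all their Artin twists at critical points shifted by algebraic numbers

Let `M_1, …, M_f` be motives over `ℚ` of (odd) weight `w` with coefficients in the number field `F`. Their `L`-functions
have values in `F ⊗ ℂ`, that is, one component `L_σ(M_i, s)` for each embedding `σ` of `F`. Let `s_0` be a critical
integer. Deligne's conjecture says `L(M_i ⊗ ρ, s_0) = c^+(M_i ⊗ ρ, s_0) 𝓛` with `𝓛 ∈ F` (for Artin motives `ρ` with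
coefficients in `F`). It implies many relations: between the components, between different critical integers and
between different twists (the periods of `M ⊗ ρ` and of `M` are related by algebraic numbers).

Let `s = z + μ`, where `μ` is an integer and `z` is algebraic and close to an integer `z_0 ≥ 1` such that `z_0 + μ` is
critical. We prove that at almost all such points there are no such relations, not even approximately, between the
numbers `(2π)^z` (more generally `β^z`), `Γ(z)`, `ψ(z), ψ'(z), …` and all the `L_σ^(k)(M_i ⊗ ρ_l, z + μ_j)`, relative to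
arbitrary complex constants, for instance periods. Since `Γ_ℂ(z + ν) = 2 (2π)^(-z-ν) z (z+1) ⋯ (z+ν-1) Γ(z)`, these
numbers generate, together with `z`, the values of all the completed `L`-functions and of their derivatives.

The hypotheses on the coefficients: the motives `M_i ⊗ ρ_l` are pure, and for each `τ` in the Galois group `G` of the
field `N` of the Artin motives, no nontrivial combination of the `σ(a_i(p)) p^(-w/2)` with constant coefficients tends to
zero along the primes with Frobenius element `τ`. By the prime number theorem for Rankin-Selberg `L`-functions this is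
true if the `M_i^σ` are given by cuspidal automorphic representations such that the twists by representations of `G` of
different ones among them have no common constituents and no self-twists by `G` occur.
-/

set_option autoImplicit false

open NumberField Filter Topology

namespace Pool.Agent.Results.MP_cd171c_nt.ArtinTwistsGamma

/-- The elements of the number field `k` with image in `K` which are quotients of two integers of `k` all of whose
conjugates have absolute value at most `T`. -/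
def Points (k : Type) [Field k] [NumberField k] (ι : k →+* ℂ) (K : Set ℂ) (T : ℝ) : Set k :=
  {x | ι x ∈ K ∧ ∃ a b : 𝓞 k, b ≠ 0 ∧ (∀ φ : k →+* ℂ, ‖φ a‖ ≤ T ∧ ‖φ b‖ ≤ T) ∧ x = a / b}

/-- The sequences `a_1, …, a_f` with values in `F` are not degenerate along the primes `p` with a given Frobenius element
`τ` in the Galois group of `N` (that is, `φ(τ x) = φ(x)^p` for a homomorphism `φ` from the ring of integers of `N` to the
algebraic closure of the field with `p` elements): for no `τ` there is a nontrivial combination of the numbers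
`σ(a_i(p)) p^(-w/2)`, `σ : F → ℂ`, with constant coefficients, which tends to zero along these primes. -/
def Nondegenerate {F : Type} [Field F] [NumberField F] {f : ℕ} (a : Fin f → ℕ → F) (w : ℝ)
    (N : Type) [Field N] [NumberField N] : Prop :=
  ∀ (τ : Gal(N/ℚ)) (c : Fin f × (F →+* ℂ) → ℂ), c ≠ 0 →
    ¬ Tendsto (fun p : ℕ => (∑ z, c z * z.2 (a z.1 p)) / (((p : ℝ) ^ (w / 2) : ℝ) : ℂ))
      (atTop ⊓ 𝓟 {p : ℕ | p.Prime ∧ ∃ _ : Fact p.Prime, ∃ φ : 𝓞 N →+* AlgebraicClosure (ZMod p),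
        ∀ x : 𝓞 N, φ (τ • x) = φ x ^ p}) (𝓝 0)

/-- The sequences `b_(i σ l)` are the coefficients of the `L`-functions of the twists of the conjugates of the motives
with coefficients `a_i` by the Artin motives with characters `ψ_l` as far as almost all primes are concerned:
`b_(i σ l)(p) = ψ_l(τ) σ(a_i(p))` if `τ` is a Frobenius element of `p`, for almost all primes `p`; and they are pure of
weight `w`. -/
structure AreTwists {F : Type} [Field F] [NumberField F] {f t : ℕ} (a : Fin f → ℕ → F) (w : ℝ)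
    (N : Type) [Field N] [NumberField N] (ψ : Fin t → Gal(N/ℚ) → ℂ)
    (b : Fin f → (F →+* ℂ) → Fin t → ℕ → ℂ) : Prop where
  frobenius : ∃ D : ℕ, ∀ (i : Fin f) (σ : F →+* ℂ) (l : Fin t) (p : ℕ), D < p → ∀ [Fact p.Prime],
    ∀ (φ : 𝓞 N →+* AlgebraicClosure (ZMod p)) (τ : Gal(N/ℚ)), (∀ x : 𝓞 N, φ (τ • x) = φ x ^ p) →
    b i σ l p = ψ l τ * σ (a i p)
  pure : ∃ C : ℝ, ∀ (i : Fin f) (σ : F →+* ℂ) (l : Fin t) (p : ℕ), p.Prime →
    ‖b i σ l p‖ ≤ C * (p : ℝ) ^ (w / 2)

/-- `L i σ l` is given by the Dirichlet series `∑ b_(i σ l)(n) n^(-s)`, absolutely convergent, for `Re s > c`, and the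
functions `L i σ l (s + μ_j)` are analytic at the points of the connected set `U`, which contains all large real numbers
and none of `0, -1, -2, …`. -/
structure Continued {F : Type} [Field F] [NumberField F] {f t r : ℕ} (b : Fin f → (F →+* ℂ) → Fin t → ℕ → ℂ)
    (μ : Fin r → ℤ) (c : ℝ) (L : Fin f → (F →+* ℂ) → Fin t → ℂ → ℂ) (U : Set ℂ) : Prop where
  summable : ∀ (i : Fin f) (σ : F →+* ℂ) (l : Fin t) (s : ℂ), c < s.re → LSeriesSummable (b i σ l) s
  eq_series : ∀ (i : Fin f) (σ : F →+* ℂ) (l : Fin t) (s : ℂ), c < s.re → L i σ l s = LSeries (b i σ l) s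
  connected : IsPreconnected U
  real : ∀ᶠ s : ℝ in atTop, (s : ℂ) ∈ U
  no_pole : ∀ s ∈ U, ∀ m : ℕ, s ≠ -m
  analytic : ∀ (i : Fin f) (σ : F →+* ℂ) (l : Fin t) (j : Fin r), ∀ s ∈ U, AnalyticAt ℂ (L i σ l) (s + μ j)

/-- The numbers `β_m^z`, `Γ(z)`, the derivatives of order less than `v` of the digamma function at `z` and of the
functions `L i σ l` at the points `z + μ_j`. -/
noncomputable def values {F : Type} [Field F] {f t r h : ℕ} (μ : Fin r → ℤ) (β : Fin h → ℝ)
    (L : Fin f → (F →+* ℂ) → Fin t → ℂ → ℂ) (v : ℕ) (z : ℂ) :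
    Fin h ⊕ (Unit ⊕ (Fin v ⊕ ((Fin r × ((Fin f × (F →+* ℂ)) × Fin t)) × Fin v))) → ℂ
  | Sum.inl l => (β l : ℂ) ^ z
  | Sum.inr (Sum.inl _) => Complex.Gamma z
  | Sum.inr (Sum.inr (Sum.inl j)) => iteratedDeriv j Complex.digamma z
  | Sum.inr (Sum.inr (Sum.inr x)) => iteratedDeriv x.2 (L x.1.2.1.1 x.1.2.1.2 x.1.2.2) (z + μ x.1.1)

/-- The `n`-tuples `x` of points of `k` for which there is a polynomial `P` of degree at most `d` in each variable, with
coefficients of the form `∑ ξ_i ι(c_i)`, where the `c_i` are integers of `k` all of whose conjugates have absolute value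
at most `T ^ A`, such that the value of `P` at the numbers `values μ β L v (x_j)`, `j ≤ n`, is at most `T ^ (-B)` times
the absolute value of some nonzero coefficient of `P`. -/
def Exceptional {F : Type} [Field F] {f t r h : ℕ} (μ : Fin r → ℤ) (β : Fin h → ℝ)
    (L : Fin f → (F →+* ℂ) → Fin t → ℂ → ℂ) (v n d : ℕ) {g : ℕ} (k : Type) [Field k] [NumberField k]
    (ι : k →+* ℂ) (ξ : Fin g → ℂ) (K : Set ℂ) (A B T : ℝ) : Set (Fin n → k) :=
  {x | (∀ j, x j ∈ Points k ι K T) ∧
    ∃ P : MvPolynomial (Fin n × (Fin h ⊕ (Unit ⊕ (Fin v ⊕ ((Fin r × ((Fin f × (F →+* ℂ)) × Fin t)) × Fin v))))) ℂ,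
    (∀ y, P.degreeOf y ≤ d) ∧
    (∀ s, ∃ c : Fin g → 𝓞 k, (∀ i (φ : k →+* ℂ), ‖φ (c i)‖ ≤ T ^ A) ∧ P.coeff s = ∑ i, ξ i * ι (c i)) ∧
    ∃ s₀, P.coeff s₀ ≠ 0 ∧
      ‖MvPolynomial.aeval (fun y : Fin n ×
        (Fin h ⊕ (Unit ⊕ (Fin v ⊕ ((Fin r × ((Fin f × (F →+* ℂ)) × Fin t)) × Fin v)))) =>
        values μ β L v (ι (x y.1)) y.2) P‖ ≤ T ^ (-B) * ‖P.coeff s₀‖}

/-- Let `a_1, …, a_f` be sequences in the number field `F`, not degenerate with respect to the Galois extension `N` of `ℚ`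
and the weight `w`, let `ψ_1, …, ψ_t` be linearly independent functions on the Galois group of `N` (for instance
irreducible characters), `b` the coefficients of the twists as in `AreTwists`, and `μ_1, …, μ_r` distinct integers. Let
`L` be the `L`-functions of all the twists and conjugates, continued as in `Continued`, let `β_1, …, β_h` be positive real
numbers such that `∏ β_m ^ v_m` is irrational for all nonzero `v ∈ ℤ^h` (for instance `2 π`), and let `K` be a compact
subset of `U`. For all `v`, `m`, `n`, `g`, `d`, `A` and `ε > 0` there are `B`, `C`, `T₀` such that for every number field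
`k` of degree at most `m`, every embedding of `k` in `ℂ`, all complex numbers `ξ_1, …, ξ_g` and all `T ≥ T₀` the number
of exceptional `n`-tuples is at most `C T^ε P^(n - 1)`, where `P` is the number of points. -/
theorem result (F : Type) [Field F] [NumberField F] {f t r h : ℕ} (a : Fin f → ℕ → F) (w : ℝ)
    (N : Type) [Field N] [NumberField N] (ha : Nondegenerate a w N) (ψ : Fin t → Gal(N/ℚ) → ℂ)
    (hψ : LinearIndependent ℂ ψ) (b : Fin f → (F →+* ℂ) → Fin t → ℕ → ℂ) (hb : AreTwists a w N ψ b) (μ : Fin r → ℤ)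
    (hμ : Function.Injective μ) (c : ℝ) (L : Fin f → (F →+* ℂ) → Fin t → ℂ → ℂ) (U : Set ℂ)
    (hc : Continued b μ c L U) (β : Fin h → ℝ) (hβ0 : ∀ l, 0 < β l)
    (hβ : ∀ v : Fin h → ℤ, (∃ x : ℚ, ∏ l, β l ^ v l = x) → v = 0) (v m n g d : ℕ) (K : Set ℂ) (hK : IsCompact K)
    (hKU : K ⊆ U) (A ε : ℝ) (hε : 0 < ε) :
    ∃ B C T₀ : ℝ, ∀ (k : Type) [Field k] [NumberField k], Module.finrank ℚ k ≤ m → ∀ (ι : k →+* ℂ) (ξ : Fin g → ℂ)
      (T : ℝ), T₀ ≤ T → (Exceptional μ β L v n d k ι ξ K A B T).Finite ∧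
        ((Exceptional μ β L v n d k ι ξ K A B T).ncard : ℝ) ≤ C * T ^ ε * ((Points k ι K T).ncard : ℝ) ^ (n - 1) := by
  obtain ⟨⟨D, hD⟩, C₁, hC₁⟩ := hb
  have ha' : ∀ τ : Gal(N/ℚ), Y456.DP.ND (Y456.DP.frobSet N τ) (w / 2)
      (fun (z : Fin f × (F →+* ℂ)) (p : ℕ) => z.2 (a z.1 p)) := by
    intro τ c' hc' hT
    refine ha τ c' hc' ?_
    exact hT
  have hND : Y456.DP.ND Set.univ (w / 2) (fun (z : (Fin f × (F →+* ℂ)) × Fin t) (p : ℕ) =>
      b z.1.1 z.1.2 z.2 p) := by
    have h0 := Y456.DP.ND_art (J := Fin f × (F →+* ℂ)) (I := Fin t) N ψ hψ (w / 2)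
      (fun (z : Fin f × (F →+* ℂ)) (p : ℕ) => z.2 (a z.1 p)) ha'
      (fun (z : (Fin f × (F →+* ℂ)) × Fin t) (p : ℕ) => b z.1.1 z.1.2 z.2 p) D
    refine h0 ?_
    intro z p hp _ φ τ hφ
    exact hD z.1.1 z.1.2 z.2 p hp φ τ hφ
  let a' : Fin r × ((Fin f × (F →+* ℂ)) × Fin t) → ℕ → ℂ := fun y n =>
    b y.2.1.1 y.2.1.2 y.2.2 n * (n : ℂ) ^ (-((μ y.1 : ℤ) : ℂ))
  have hPP : Y922.ZF.PP a' := by
    have := Y456.DP.PP_nd (w / 2) C₁ (fun (z : (Fin f × (F →+* ℂ)) × Fin t) (p : ℕ) =>
      b z.1.1 z.1.2 z.2 p) (fun z p hp => hC₁ z.1.1 z.1.2 z.2 p hp) hND (fun i : Fin r => ((μ i : ℤ) : ℝ))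
      (fun i j hij => hμ (by
        have h : ((μ i : ℤ) : ℝ) = ((μ j : ℤ) : ℝ) := hij
        exact_mod_cast h))
    have e : a' = fun (y : Fin r × ((Fin f × (F →+* ℂ)) × Fin t)) (n : ℕ) =>
        (fun (z : (Fin f × (F →+* ℂ)) × Fin t) (p : ℕ) => b z.1.1 z.1.2 z.2 p) y.2 n *
          (n : ℂ) ^ (-((((μ y.1 : ℤ) : ℝ)) : ℂ)) := by
      funext y n
      simp only [a']
      push_cast
      rfl
    rw [e]
    exact this
  let L' : Fin r × ((Fin f × (F →+* ℂ)) × Fin t) → ℂ → ℂ := fun y s =>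
    L y.2.1.1 y.2.1.2 y.2.2 (s + ((μ y.1 : ℤ) : ℂ))
  let c' : ℝ := c + ∑ i, |((μ i : ℤ) : ℝ)|
  have hre : ∀ (i : Fin r) (s : ℂ), c' < s.re → c < (s + ((μ i : ℤ) : ℂ)).re := by
    intro i s hs
    have h1 : |((μ i : ℤ) : ℝ)| ≤ ∑ i, |((μ i : ℤ) : ℝ)| :=
      Finset.single_le_sum (f := fun i => |((μ i : ℤ) : ℝ)|) (fun j _ => abs_nonneg _) (Finset.mem_univ i)
    have h2 := neg_abs_le ((μ i : ℤ) : ℝ)
    simp only [c'] at hs
    rw [Complex.add_re, Complex.intCast_re]
    linarith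
  have hs1 : ∀ y, ∀ s : ℂ, c' < s.re → LSeriesSummable (a' y) s := fun y s hs =>
    Y456.DP.summable_shift _ _ _ (hc.summable y.2.1.1 y.2.1.2 y.2.2 _ (hre y.1 s hs))
  have hs2 : ∀ y, ∀ s : ℂ, c' < s.re → L' y s = LSeries (a' y) s := by
    intro y s hs
    have h3 := Y456.DP.series_shift (b y.2.1.1 y.2.1.2 y.2.2) ((μ y.1 : ℤ) : ℂ) s
    have h4 : L' y s = LSeries (b y.2.1.1 y.2.1.2 y.2.2) (s + ((μ y.1 : ℤ) : ℂ)) :=
      hc.eq_series y.2.1.1 y.2.1.2 y.2.2 _ (hre y.1 s hs)
    rw [h4]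
    exact h3.symm
  have han : ∀ y, AnalyticOnNhd ℂ (L' y) U := by
    intro y s hs
    exact (hc.analytic y.2.1.1 y.2.1.2 y.2.2 y.1 s hs).comp_of_eq (f := fun z : ℂ => z + ((μ y.1 : ℤ) : ℂ))
      (by fun_prop) rfl
  obtain ⟨B, C, T₀, hC, hT₀, H⟩ := Y456.DP.core (g := g) m n d v β hβ0 hβ a' hPP c' hs1 L' hs2 U hc.connected
    hc.real hc.no_pole han K hK hKU A ε hε
  refine ⟨B, C, T₀, fun k _ _ hF ι ξ T hT => ?_⟩
  have hT0 : 0 ≤ T := by linarith
  have hP : Points k ι K T = {x : k | Y120.HtLe k T x ∧ ι x ∈ K} := by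
    ext x
    constructor
    · rintro ⟨h1, a, b, hb, hab, hx⟩
      exact ⟨⟨a, b, hb, Y120.house_le k hT0 fun φ => (hab φ).1, Y120.house_le k hT0 fun φ => (hab φ).2, hx⟩, h1⟩
    · rintro ⟨⟨a, b, hb, ha, hb', hx⟩, h1⟩
      exact ⟨h1, a, b, hb, fun φ => ⟨(Y120.house_ge k _ φ).trans ha, (Y120.house_ge k _ φ).trans hb'⟩, hx⟩
  have hval : ∀ (s : ℂ) y, values μ β L v s y = (Y922.ZF.vP β L' v) s y := by
    intro s y
    rcases y with l | (x | (x | x))
    · rfl
    · rfl
    · rfl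
    · simp only [values, Y922.ZF.vP, L']
      rw [iteratedDeriv_comp_add_const]
  have hsub : Exceptional μ β L v n d k ι ξ K A B T ⊆ Y124.ExcNF n d k ι ξ ((Y922.ZF.vP β L' v)) K A B T := by
    rintro x ⟨hx, P, hPd, hPc, s₀, hs₀, hs⟩
    refine ⟨fun j => ?_, P, hPd, hPc, s₀, hs₀, ?_⟩
    · have h1 := hx j
      rw [hP] at h1
      exact h1
    · simp only [hval] at hs
      exact hs
  obtain ⟨h1, h2⟩ := H k hF ι ξ T hT
  refine ⟨h1.subset hsub, ?_⟩
  rw [hP]
  exact le_trans (by exact_mod_cast Set.ncard_le_ncard hsub h1) h2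

end Pool.Agent.Results.MP_cd171c_nt.ArtinTwistsGamma
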