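import Pool.Agent.Y691.TU.Odd

/-!
# Deligne's period conjecture in odd weight and hypergraphs
-/

set_option autoImplicit false

open CategoryTheory CategoryTheory.Limits AlgebraicGeometry Pool.Agent.Y116.UV
  Pool.Agent.Y101.Th Pool.Agent.Y691.TU

namespace Pool.Agent.Results.MP_cd171c_nt.CubicHypersurfaces

universe v u

/-- **Deligne's period conjecture in odd weight and cubic hypersurfaces.** Let `F` be a number field,
`C` the category of motives for absolute Hodge cycles over `ℚ` with coefficients in `F`, `D` the
graded pieces `gr^W_w H^j_c(X)` as objects of `C`, and `T` the data of Deligne's conjecture in odd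
weight, with their known properties. The following are equivalent:

* for all motives `M` in `C` of odd weight for which `0` is critical, `α^+` is an isomorphism and
  `L(M, 0)` lies in `F c^+(M)`;
* this is true for all Tate twists of all direct summands of the graded pieces of the smooth affine
  cubic hypersurfaces `∑_{(i, j, l) ∈ S} x_i y_j z_l = 1` over `ℚ`.

For each `n` it is true for all Tate twists of all direct summands of the cohomology of the smooth
projective schemes of dimension at most `n` if and only if this is true for the hypersurfaces of the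
sets `S` with `n + 2` variables `z_l`, and if and only if it is true for the hypersurfaces
`t(x, y, z) = 1` for the trilinear forms `t` over `ℚ` with a block of at most `n + 2` variables. -/
theorem result {F : Type} [Field F] [NumberField F] {C : Type u} [Category.{v} C] [Abelian C]
    {D : Graded ℚ C} [D.L.IsEquivalence] {T : Periods F C} (hk : Resolution ℚ)
    (hC : Semisimple C) (hD : IsGraded D) (hG : ∀ M : C, Gen D M) (hT : IsPeriods T D) :
    ((∀ M : C, DeligneOdd T M) ↔
      ∀ (a b c : ℕ) (S : Finset (Fin a × Fin b × Fin c)) (w j : ℤ),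
        Every D.L (DeligneOdd T) (D.H (tripS ℚ S) w j)) ∧
    ∀ n : ℕ,
      ((∀ X : Sch ℚ, SmProj X → topologicalKrullDim X.left ≤ n → ∀ i,
          Every D.L (DeligneOdd T) (D.H X i i)) ↔
        ∀ (a b : ℕ) (S : Finset (Fin a × Fin b × Fin (n + 2))) (w j : ℤ),
          Every D.L (DeligneOdd T) (D.H (tripS ℚ S) w j)) ∧
      ((∀ X : Sch ℚ, SmProj X → topologicalKrullDim X.left ≤ n → ∀ i,
          Every D.L (DeligneOdd T) (D.H X i i)) ↔
        ∀ (a b c : ℕ) (t : Fin a → Fin b → Fin c → ℚ), (a ≤ n + 2 ∨ b ≤ n + 2 ∨ c ≤ n + 2) →
          ∀ w j, Every D.L (DeligneOdd T) (D.H (hypS t) w j)) :=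
  ⟨every_frac isFrac_rat hk hC hD hG (additive_odd hT) (odd_unit hT), fun n =>
    ⟨every_dim_frac isFrac_rat hk hC hD (additive_odd hT) (odd_unit hT) n,
      every_dim hk hC hD (additive_odd hT) (odd_unit hT) n⟩⟩

end Pool.Agent.Results.MP_cd171c_nt.CubicHypersurfaces
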