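import Pool.Agent.Y144.DL.Over5

/-!
# Deligne's conjecture for ALL Artin twists of motives of odd weight over ALL number fields, from ABELIAN twists

`k₀` is ANY number field in `ℂ` and `F₀ ⊇ k₀` is ANY finite Galois extension of `ℚ` in `ℂ` (every Artin representation
of `k₀` is a representation of `Gal(F₀/k₀)` for some `F₀`). `F₁ ⊇ F₀` is obtained by adjoining the square roots of
finitely many elements: over every subfield of `F₀`, elements with all possible signs at the real places.
`Gal(F₁/F₀)` is an elementary abelian `2`-group. `gal k₀ F₁ = Gal(F₁/k₀)`, `Fr p ∈ Gal(F₁/k₀)` is a Frobenius element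
at the prime `p` of `k₀`, and `c v` is complex conjugation at the real place `v` of `k₀`. `M` is (the family of
Frobenius traces of) a motive over `k₀` of odd weight with coefficients in `K`; the primes ramified in `F₁` are left
out of `M.P`, which changes the values by Euler factors in `K`. `E / K` is an algebraic extension which contains the
roots of unity of order `|Gal(F₁/k₀)|`. For a function `θ` on `Gal(F₁/k₀)` a term of `LOver M Fr θ m` is
`L(M ⊗ θ, s)`: for every embedding of the coefficients, a meromorphic function on `ℂ` with the Euler product of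
`M ⊗ θ` and holomorphic and nonzero at `m`. `A.δ θ` is the period of the Artin motive `Res_{k₀/ℚ} θ`, `2 r` is the rank
of `M` (and `H_dR(M) / F^-` is free of rank `r` over `k₀ ⊗ K`: automatic at real places and for `K = ℚ`), `q δ(1) ^ r` is Deligne's period of `Res_{k₀/ℚ} M`, and `ρ v` is the quotient of the periods `c^∓` of `M` at the
real place `v`. Deligne's period of `Res_{k₀/ℚ} (M ⊗ θ)` is `q ^ d ∏_v ρ_v ^ (b v) δ(θ) ^ r`, where `d` is the dimension
of `θ` and `b v` the multiplicity of the eigenvalue `-1` of complex conjugation at `v`.
-/

set_option autoImplicit false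

open Pool.Agent.Y144.DL

attribute [local instance high] IntermediateField.algebra'

/-- `TwistsOver` is the following weak statement on abelian twists. For each intermediate field `k = F₁^H` of
`F₁ / k₀` over which `F₁` is SOLVABLE and each character `χ` of `Gal(F₁/k)`
* the function `L(M_k ⊗ χ, s) = L(M ⊗ Ind_H χ, s)` of the ABELIAN twist has a meromorphic continuation which is
  holomorphic and nonzero at `m`;
* relative rationality: for characters `χ`, `χ'` of `Gal(F₁/k)` with the same signs at the real places of `k` the
  values at `m` have the quotient predicted by Deligne's conjecture, up to a factor in `E` (no relation between the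
  periods over different fields is assumed),
and Deligne's conjecture holds at `m`, up to `E`, for `M` and, for each real place `v` of `k₀`, for ONE twist
`M ⊗ ψ_v` by a linear character which is odd at `v` and even at the other real places.

`DeligneOver` is Deligne's conjecture at `m` for the twists of `M` by all representations, over all fields `K'` with
`K ≤ K' ≤ E`, of `Gal(F₀/k₀)` (resp. `Gal(F₁/k₀)`): `L(M ⊗ θ, s)` has a meromorphic continuation, holomorphic and
nonzero at `m`, and `L(M ⊗ θ, m) ∼ q ^ d ∏_v ρ_v ^ (b v) δ(θ) ^ r` up to a factor in the field of coefficients `K'`.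

Theorem: the weak statement for `F₁` implies Deligne's conjecture for all representations of `Gal(F₀/k₀)`; and
conversely Deligne's conjecture for the representations of `Gal(F₁/k₀)` implies the weak statement for `F₁`. -/
theorem Pool.Agent.Results.MP_cd171c_nt.ExactArtinTwists.result
    (F₀ k₀ : IntermediateField ℚ ℂ) [FiniteDimensional ℚ F₀] [Normal ℚ F₀]
    [FiniteDimensional ℚ k₀] (hk : k₀ ≤ F₀) :
    ∃ (F₁ : IntermediateField ℚ ℂ) (_ : FiniteDimensional ℚ F₁) (_ : Normal ℚ F₁) (h : k₀ ≤ F₁),
      F₀ ≤ F₁ ∧ (∀ g ∈ gal F₀ F₁, g * g = 1) ∧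
      ∀ (K E : Type) [Field K] [CharZero K] [Field E] [Algebra K E] [Algebra.IsAlgebraic K E]
        (_ : HasEnoughRootsOfUnity E (Nat.card (gal k₀ F₁))) (c : RealPlace k₀ → gal k₀ F₁)
        (_ : ∀ v, IsConjAt h v (c v).1) (M : EulerData K) (Fr : M.P → gal k₀ F₁) (m : ℂ)
        (A : ArtinPeriods E (gal k₀ F₁)) (r : ℕ) (q : (K →+* ℂ) → ℂ)
        (ρ : RealPlace k₀ → (K →+* ℂ) → ℂ),
        (Nonempty (TwistsOver (fun H : Subgroup (gal k₀ F₁) => Group.IsSolvable H) c (M.map E) Fr m A r
            (lft E q) (fun v => lft E (ρ v))) →
          DeligneOver E ((gal F₀ F₁).subgroupOf (gal k₀ F₁)) c M Fr m A r q ρ) ∧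
        (DeligneOver E ⊥ c M Fr m A r q ρ →
          Nonempty (TwistsOver (fun H : Subgroup (gal k₀ F₁) => Group.IsSolvable H) c (M.map E) Fr m A r
            (lft E q) (fun v => lft E (ρ v)))) :=
  all_base_fields F₀ k₀ hk
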