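import Pool.Agent.Y922.ZF.Del

/-!
# Symmetric powers and tensor products of motives at almost all algebraic points

Let `a_1, …, a_r` be the sequences of the traces of Frobenius of motives `M_1, …, M_r` (for instance of rank two and odd
weight). The coefficients at the primes `p` of the `L`-functions of symmetric powers `Sym^k M_i`, of tensor products of
such, and of their Tate twists are polynomials in `p`, `1/p` and the `a_i(p)`. If the points `(p, a_1(p), …, a_r(p))` are
Zariski dense, then the values of all these `L`-functions at `s, 2s, …, Js` are independent, at almost all algebraic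
points `s`, in the sense of relations of bounded degree and polynomially bounded height relative to arbitrary constants
(for instance Deligne's periods).
-/

set_option autoImplicit false

open NumberField

namespace Pool.Agent.Results.MP_cd171c_nt.TensorConstructions

/-- The elements of the number field `F` with image in `K` which are quotients of two integers of `F` all of whose
conjugates have absolute value at most `T`. -/
def Points (F : Type) [Field F] [NumberField F] (ι : F →+* ℂ) (K : Set ℂ) (T : ℝ) : Set F :=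
  {x | ι x ∈ K ∧ ∃ a b : 𝓞 F, b ≠ 0 ∧ (∀ φ : F →+* ℂ, ‖φ a‖ ≤ T ∧ ‖φ b‖ ≤ T) ∧ x = a / b}
/-- No nonzero complex polynomial in `r + 1` variables vanishes at all points `(p, a_1(p), …, a_r(p))`, `p > N` prime,
whatever `N` is. -/
def Dense {r : ℕ} (a : Fin r → ℕ → ℂ) : Prop :=
  ∀ N : ℕ, ∀ Q : MvPolynomial (Option (Fin r)) ℂ,
    (∀ p : ℕ, p.Prime → N < p → MvPolynomial.eval (fun o : Option (Fin r) => o.elim (p : ℂ) fun i => a i p) Q = 0) →
      Q = 0

/-- The functions `L_y` are given by the Dirichlet series `∑ b_y(n) n^(-s)`, absolutely convergent, for `Re s > c`; the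
set `U` is connected, contains all large real numbers and none of `0, -1, -2, …`, and all functions `L_y` are analytic at
the points `j s`, `s ∈ U`, `1 ≤ j ≤ J`. -/
structure Continued {Y : Type} (b : Y → ℕ → ℂ) (c : ℝ) (L : Y → ℂ → ℂ) (J : ℕ) (U : Set ℂ) : Prop where
  summable : ∀ y, ∀ s : ℂ, c < s.re → LSeriesSummable (b y) s
  eq_series : ∀ y, ∀ s : ℂ, c < s.re → L y s = LSeries (b y) s
  connected : IsPreconnected U
  real : ∀ᶠ s : ℝ in Filter.atTop, (s : ℂ) ∈ U
  no_pole : ∀ s ∈ U, ∀ k : ℕ, s ≠ -k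
  analytic : ∀ y, ∀ j : Fin J, ∀ s ∈ U, AnalyticAt ℂ (L y) ((((j : ℕ) + 1 : ℕ) : ℂ) * s)

/-- The numbers `β_l^s`, `Γ(s)`, `ψ(s), ψ'(s), …, ψ^(w-1)(s)` and `L_y(j s)`, `1 ≤ j ≤ J`. -/
noncomputable def values {Y : Type} {h : ℕ} (β : Fin h → ℝ) (L : Y → ℂ → ℂ) (J w : ℕ) (s : ℂ) :
    Fin h ⊕ (Unit ⊕ (Fin w ⊕ (Y × Fin J))) → ℂ
  | Sum.inl l => (β l : ℂ) ^ s
  | Sum.inr (Sum.inl _) => Complex.Gamma s
  | Sum.inr (Sum.inr (Sum.inl k)) => iteratedDeriv k Complex.digamma s
  | Sum.inr (Sum.inr (Sum.inr x)) => L x.1 ((((x.2 : ℕ) + 1 : ℕ) : ℂ) * s)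

/-- The `n`-tuples `t` of points of `F` for which there is a polynomial `P` of degree at most `d` in each variable, with
coefficients of the form `∑ ξ_i ι(c_i)`, where the `c_i` are integers of `F` all of whose conjugates have absolute value
at most `T ^ A`, such that the value of `P` at the numbers `values β L J w (t_j)`, `j ≤ n`, is at most `T ^ (-B)` times the
absolute value of some nonzero coefficient of `P`. -/
def Exceptional {Y : Type} {h : ℕ} (β : Fin h → ℝ) (L : Y → ℂ → ℂ) (J w : ℕ) (n d : ℕ) {g : ℕ} (F : Type) [Field F] [NumberField F] (ι : F →+* ℂ)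
    (ξ : Fin g → ℂ) (K : Set ℂ) (A B T : ℝ) : Set (Fin n → F) :=
  {t | (∀ j, t j ∈ Points F ι K T) ∧ ∃ P : MvPolynomial (Fin n × (Fin h ⊕ (Unit ⊕ (Fin w ⊕ (Y × Fin J))))) ℂ,
    (∀ x, P.degreeOf x ≤ d) ∧
    (∀ s, ∃ c : Fin g → 𝓞 F, (∀ i (φ : F →+* ℂ), ‖φ (c i)‖ ≤ T ^ A) ∧ P.coeff s = ∑ i, ξ i * ι (c i)) ∧
    ∃ s₀, P.coeff s₀ ≠ 0 ∧
      ‖MvPolynomial.aeval (fun x : Fin n × (Fin h ⊕ (Unit ⊕ (Fin w ⊕ (Y × Fin J)))) => values β L J w (ι (t x.1)) x.2) P‖ ≤
        T ^ (-B) * ‖P.coeff s₀‖}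

/-- Let `β_1, …, β_h` be positive real numbers such that `∏ β_l ^ v_l` is irrational for all nonzero `v ∈ ℤ^h` (for
instance `h = 1` and `β_1 = 2π`), let `a_1, …, a_r` be complex sequences with `Dense a`, let `Q_y` be finitely many
linearly independent polynomials in `r + 1` variables and `b_y` sequences with `p ^ e b_y(p) = Q_y(p, a_1(p), …, a_r(p))`
for all large primes `p`, let `L_y` and `U` be as in `Continued`, and let `K` be a compact subset of `U`. For all `w`,
`m`, `n`, `g`, `d`, `A` and `ε > 0` there are `B`, `C`, `T₀` such that for every number field `F` of degree at most `m`,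
every embedding of `F` in `ℂ`, all complex numbers `ξ_1, …, ξ_g` and all `T ≥ T₀` the number of exceptional `n`-tuples is
at most `C T^ε N^(n - 1)`, where `N` is the number of points. -/
theorem result {Y : Type} [Fintype Y] [DecidableEq Y] {h r : ℕ} (β : Fin h → ℝ) (hβ0 : ∀ l, 0 < β l)
    (hβ : ∀ v : Fin h → ℤ, (∃ x : ℚ, ∏ l, β l ^ v l = x) → v = 0) (a : Fin r → ℕ → ℂ) (ha : Dense a)
    (Q : Y → MvPolynomial (Option (Fin r)) ℂ) (hQ : LinearIndependent ℂ Q) (b : Y → ℕ → ℂ) (e N₀ : ℕ)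
    (hb : ∀ y, ∀ p : ℕ, p.Prime → N₀ < p →
      (p : ℂ) ^ e * b y p = MvPolynomial.eval (fun o : Option (Fin r) => o.elim (p : ℂ) fun i => a i p) (Q y))
    (c : ℝ) (L : Y → ℂ → ℂ) (J : ℕ) (U : Set ℂ) (hc : Continued b c L J U) (w m n g d : ℕ) (K : Set ℂ)
    (hK : IsCompact K) (hKU : K ⊆ U) (A ε : ℝ) (hε : 0 < ε) :
    ∃ B C T₀ : ℝ, ∀ (F : Type) [Field F] [NumberField F], Module.finrank ℚ F ≤ m → ∀ (ι : F →+* ℂ) (ξ : Fin g → ℂ)
      (T : ℝ), T₀ ≤ T → (Exceptional β L J w n d F ι ξ K A B T).Finite ∧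
        ((Exceptional β L J w n d F ι ξ K A B T).ncard : ℝ) ≤ C * T ^ ε * ((Points F ι K T).ncard : ℝ) ^ (n - 1) := by
  classical
  obtain ⟨B, C, T₀, hC, hT₀, H⟩ := Y124.excNF (h := Fin g) m n d (Y922.ZF.vE β L J w) K (fun g' => Y922.ZF.oneE g' β hβ0 hβ b
      (Y922.ZF.PN_poly a ha Q hQ b e N₀ hb) c hc.summable L hc.eq_series J U hc.connected hc.real hc.no_pole
      hc.analytic w K hK hKU) A ε hε
  refine ⟨B, C, T₀, fun F _ _ hF ι ξ T hT => ?_⟩
  have hT0 : 0 ≤ T := by linarith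
  have hP : Points F ι K T = {x : F | Y120.HtLe F T x ∧ ι x ∈ K} := by
    ext x
    constructor
    · rintro ⟨h1, a, b, hb, hab, hx⟩
      exact ⟨⟨a, b, hb, Y120.house_le F hT0 fun φ => (hab φ).1, Y120.house_le F hT0 fun φ => (hab φ).2, hx⟩, h1⟩
    · rintro ⟨⟨a, b, hb, ha, hb', hx⟩, h1⟩
      exact ⟨h1, a, b, hb, fun φ => ⟨(Y120.house_ge F _ φ).trans ha, (Y120.house_ge F _ φ).trans hb'⟩, hx⟩
  have hval : ∀ (s : ℂ) y, values β L J w s y = (Y922.ZF.vE β L J w) s y := by
    intro s y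
    rcases y with l | (u | (k | x)) <;> rfl
  have hsub : Exceptional β L J w n d F ι ξ K A B T ⊆ Y124.ExcNF n d F ι ξ ((Y922.ZF.vE β L J w)) K A B T := by
    rintro t ⟨ht, P, hPd, hPc, s₀, hs₀, hs⟩
    refine ⟨fun j => ?_, P, hPd, hPc, s₀, hs₀, ?_⟩
    · have h1 := ht j
      rw [hP] at h1
      exact h1
    · simp only [hval] at hs
      exact hs
  obtain ⟨h1, h2⟩ := H F hF ι ξ T hT
  refine ⟨h1.subset hsub, ?_⟩
  rw [hP]
  exact le_trans (by exact_mod_cast Set.ncard_le_ncard hsub h1) h2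

end Pool.Agent.Results.MP_cd171c_nt.TensorConstructions
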